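import Pool.Agent.D0H19.SM.Stm
import Pool.Agent.D0H51.SL.Trz

/-! # TRZK: linear substitution over any nontrivially normed field of characteristic zero -/

set_option autoImplicit false

open Polynomial

namespace Pool.Agent.D0H51.SM

open Pool.Agent.D0H19.SM Pool.Agent.D0H51.SL

theorem t_TRZK : S_TRZK := by
  intro k _ _ n f hn hm hd hs
  obtain ⟨v, hv⟩ : ∃ v : k, v = -(f.coeff (n - 1)) / n := ⟨_, rfl⟩
  have hn0 : (n : k) ≠ 0 := Nat.cast_ne_zero.2 (by omega)
  obtain ⟨S, hS⟩ : ∃ S : ℝ, S = ∑ i ∈ Finset.range (n + 1), ‖(taylor v f).coeff i‖ := ⟨_, rfl⟩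
  have hS0 : 0 ≤ S := by
    rw [hS]
    exact Finset.sum_nonneg fun i _ => norm_nonneg _
  have hk : ∀ i ∈ Finset.range (n + 1), ‖(taylor v f).coeff i‖ ≤ S := by
    intro i hi
    rw [hS]
    exact Finset.single_le_sum (f := fun i => ‖(taylor v f).coeff i‖) (fun j _ => norm_nonneg _) hi
  obtain ⟨u, hu0', hun⟩ := NormedField.exists_norm_lt k (r := (1 + S)⁻¹) (by positivity)
  have hu0 : u ≠ 0 := norm_pos_iff.1 hu0'
  have hu1 : ‖u‖ ≤ 1 := hun.le.trans (inv_le_one_of_one_le₀ (by linarith))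
  have huS : ‖u‖ * S ≤ 1 := by
    calc ‖u‖ * S ≤ (1 + S)⁻¹ * (1 + S) := mul_le_mul hun.le (by linarith) hS0 (by positivity)
      _ = 1 := inv_mul_cancel₀ (by positivity)
  obtain ⟨F, hF⟩ : ∃ F : k[X], F = C (u ^ n) * f.comp (C u⁻¹ * X + C v) := ⟨_, rfl⟩
  have he : u ^ n ≠ 0 := pow_ne_zero _ hu0
  have hg : (taylor v f).natDegree = n := by rw [natDegree_taylor, hd]
  have hc : ∀ i, F.coeff i = u ^ n * ((taylor v f).coeff i * u⁻¹ ^ i) := fun i => by
    rw [hF, coeff_subst]
  have hbig : ∀ i, n < i → F.coeff i = 0 := fun i hi => by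
    rw [hc, coeff_eq_zero_of_natDegree_lt (by omega)]
    ring
  have htop : (taylor v f).coeff n = 1 := by
    rw [taylor_coeff]
    have h1 : (hasseDeriv n f).natDegree ≤ 0 := by
      have := natDegree_hasseDeriv_le f n
      omega
    rw [eq_C_of_natDegree_le_zero h1, hasseDeriv_coeff]
    have h3 : f.coeff n = 1 := by rw [← hd]; exact hm
    simp [h3]
  have hFn : F.coeff n = 1 := by
    rw [hc, htop, one_mul, inv_pow, mul_inv_cancel₀ he]
  have hFd : F.natDegree = n := natDegree_eq_of_le_of_coeff_ne_zero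
    (natDegree_le_iff_coeff_eq_zero.2 fun i hi => hbig i hi) (by rw [hFn]; exact one_ne_zero)
  have hFm : F.Monic := by
    unfold Monic leadingCoeff
    rw [hFd, hFn]
  refine ⟨F, hFm, hFd, ?_, fun i => ?_, ?_, ?_⟩
  · rw [hF]
    exact sep_subst f hs u v hu0 _ he
  · rcases lt_trichotomy i n with hi | hi | hi
    · rw [hc]
      have e1 : u ^ n * ((taylor v f).coeff i * u⁻¹ ^ i) = u ^ (n - i) * (taylor v f).coeff i := by
        have e2 : u ^ n = u ^ (n - i) * u ^ i := by rw [← pow_add]; congr 1; omega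
        rw [e2, inv_pow]
        field_simp
      rw [e1, norm_mul, norm_pow]
      have e3 : ‖u‖ ^ (n - i) ≤ ‖u‖ := by
        calc ‖u‖ ^ (n - i) ≤ ‖u‖ ^ 1 := pow_le_pow_of_le_one (norm_nonneg _) hu1 (by omega)
          _ = ‖u‖ := pow_one _
      exact (mul_le_mul e3 (hk i (Finset.mem_range.2 (by omega))) (norm_nonneg _) (norm_nonneg _)).trans huS
    · rw [hi, hFn, norm_one]
    · rw [hbig i hi, norm_zero]
      exact zero_le_one
  · rw [hc, coeff_top f n (by omega) hm hd v, hv]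
    have : f.coeff (n - 1) + (n : k) * (-(f.coeff (n - 1)) / n) = 0 := by
      field_simp
      ring
    rw [this]
    ring
  · exact iso_subst f F u v hu0 _ he hF

end Pool.Agent.D0H51.SM
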